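import Mathlib
import Pool.Agent.H90.Mod5.Main

namespace Pool.Agent.Results.MP_491f0f_co.FiveDivides

open Pool.Agent.H90.Mod5

/-- **Main theorem.** Let `G` be a finite cubic graph with a perfect matching `M`, and list the
circuits of `G - M` (in any order, from any starting vertices, in any directions). If the number of
balanced labellings of the edges of `M` with an even number of inversions and the number of those
with an odd number of inversions are not congruent modulo `5`, then `G` is 3-edge-colourable.
So for every perfect matching of a cubic graph of class 2 the two numbers are congruent modulo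
`5`. -/
theorem result {V : Type*} [Finite V] (G : SimpleGraph V) (hG : ∀ v, (G.neighborSet v).ncard = 3)
    (M : G.Subgraph) (hM : M.IsPerfectMatching) {r : ℕ} (n : Fin r → ℕ) (x : Fin r → ℕ → V)
    (hx : IsCircuitListing G M n x)
    (h5 : ¬ {κ : V → Fin 3 | IsEdgeLabelling M κ ∧ Balanced n x κ ∧
        Even (inversions n x κ)}.ncard ≡
      {κ : V → Fin 3 | IsEdgeLabelling M κ ∧ Balanced n x κ ∧
        Odd (inversions n x κ)}.ncard [MOD 5]) :
    ThreeEdgeColourable G := by
  by_contra hcol
  exact h5 (main G hG M hM n x hx hcol)

end Pool.Agent.Results.MP_491f0f_co.FiveDivides
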